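import Pool.Agent.L5helper98.CG.Defs

/-!
# Piece LAW1 of `Pool.Agent.L5helper98.CG`

Convergence in law of the masses with nonnegative continuous weights, and no atoms at the end points.
-/

set_option autoImplicit false

open MeasureTheory ProbabilityTheory Filter Topology Set
open scoped ENNReal BoundedContinuousFunction

namespace Pool.Agent.L5helper20.CG.LAW1

open Pool.Agent.L5helper98.CG

noncomputable section

/-- convergence for bounded Lipschitz functions implies that for bounded continuous ones -/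
theorem upgrade {Ω : ℝ → Type} [∀ ε, MeasurableSpace (Ω ε)] (P : ∀ ε, Measure (Ω ε))
    (hP : ∀ ε, IsProbabilityMeasure (P ε)) (Z : ∀ ε, Ω ε → ℝ) {l : Filter ℝ}
    [l.IsCountablyGenerated] (hZ : ∀ᶠ ε in l, Measurable (Z ε)) {Ω' : Type} [MeasurableSpace Ω']
    (P' : Measure Ω') [IsProbabilityMeasure P'] (Y : Ω' → ℝ) (hY : Measurable Y)
    (h : ∀ f : ℝ → ℝ, (∃ C : ℝ, ∀ x, |f x| ≤ C) → (∃ L : NNReal, LipschitzWith L f) →
      Tendsto (fun ε => ∫ x, f (Z ε x) ∂(P ε)) l (𝓝 (∫ y, f (Y y) ∂P'))) (f : ℝ →ᵇ ℝ) :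
    Tendsto (fun ε => ∫ x, f (Z ε x) ∂(P ε)) l (𝓝 (∫ y, f (Y y) ∂P')) := by
  classical
  let μs : ℝ → ProbabilityMeasure ℝ := fun ε =>
    if hm : Measurable (Z ε) then
      ⟨(P ε).map (Z ε), have := hP ε
        Measure.isProbabilityMeasure_map hm.aemeasurable⟩
    else ⟨Measure.dirac 0, inferInstance⟩
  let μ' : ProbabilityMeasure ℝ := ⟨P'.map Y, Measure.isProbabilityMeasure_map hY.aemeasurable⟩
  have hs : ∀ ε, Measurable (Z ε) → ((μs ε : ProbabilityMeasure ℝ) : Measure ℝ) =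
      (P ε).map (Z ε) := by
    intro ε hm
    have h0 : μs ε = ⟨(P ε).map (Z ε), have := hP ε
        Measure.isProbabilityMeasure_map hm.aemeasurable⟩ := dif_pos hm
    rw [h0]
    rfl
  have h1 : ∀ g : ℝ → ℝ, Continuous g → ∀ ε, Measurable (Z ε) →
      ∫ x, g x ∂((μs ε : ProbabilityMeasure ℝ) : Measure ℝ) = ∫ x, g (Z ε x) ∂(P ε) := by
    intro g hg ε hm
    rw [hs ε hm, integral_map hm.aemeasurable hg.aestronglyMeasurable]
  have h2 : ∀ g : ℝ → ℝ, Continuous g →
      ∫ x, g x ∂((μ' : ProbabilityMeasure ℝ) : Measure ℝ) = ∫ y, g (Y y) ∂P' := by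
    intro g hg
    show ∫ x, g x ∂(P'.map Y) = _
    rw [integral_map hY.aemeasurable hg.aestronglyMeasurable]
  have hT : Tendsto μs l (𝓝 μ') := by
    rw [tendsto_iff_forall_lipschitz_integral_tendsto]
    rintro g ⟨C, hC⟩ ⟨L, hL⟩
    have h3 := h g ⟨C + |g 0|, fun x => by
      have := hC x 0
      rw [Real.dist_eq] at this
      have h4 := abs_sub_abs_le_abs_sub (g x) (g 0)
      linarith⟩ ⟨L, hL⟩
    rw [h2 g hL.continuous]
    refine h3.congr' ?_
    filter_upwards [hZ] with ε hm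
    rw [h1 g hL.continuous ε hm]
  have h5 := (ProbabilityMeasure.tendsto_iff_forall_integral_tendsto.1 hT) f
  rw [h2 f f.continuous] at h5
  refine h5.congr' ?_
  filter_upwards [hZ] with ε hm
  rw [h1 f f.continuous ε hm]

theorem meas_int {Ω' : Type} [MeasurableSpace Ω'] {M : Ω' → Measure ℝ} (hM : Measurable M)
    {g : ℝ → ℝ} (hg : Continuous g) (h0 : ∀ u, 0 ≤ g u) :
    Measurable (fun y => ∫ u in Icc (0 : ℝ) 1, g u ∂(M y)) := by
  have h : (fun y => ∫ u in Icc (0 : ℝ) 1, g u ∂(M y)) = fun y =>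
      (∫⁻ u, (Icc (0 : ℝ) 1).indicator (fun u => ENNReal.ofReal (g u)) u ∂(M y)).toReal := by
    funext y
    rw [integral_eq_lintegral_of_nonneg_ae (ae_of_all _ h0) hg.aestronglyMeasurable,
      lintegral_indicator measurableSet_Icc]
  rw [h]
  exact ((Measure.measurable_lintegral
    ((hg.measurable.ennreal_ofReal).indicator measurableSet_Icc)).comp hM).ennreal_toReal

/-- the facts about one field which are used -/
structure Good {Ω : Type} [MeasurableSpace Ω] (P : Measure Ω) (ω : ℝ → Ω → ℝ) : Prop where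
  int : ∀ᵐ x ∂P, IntegrableOn (fun u => Real.exp (ω u x)) (Ico 0 1)
  meas : ∀ w : ℝ → ℝ, Measurable w → Measurable (mass w ω)
  mean : ∀ w : ℝ → ℝ, Measurable w → (∀ u, 0 ≤ w u) → (∃ K, ∀ u, w u ≤ K) →
    ∫⁻ x, ENNReal.ofReal (mass w ω x) ∂P = ENNReal.ofReal (∫ u in Ico (0 : ℝ) 1, w u)

theorem mass_nonneg {Ω : Type} {w : ℝ → ℝ} (hw : ∀ u, 0 ≤ w u) (ω : ℝ → Ω → ℝ) (x : Ω) :
    0 ≤ mass w ω x :=
  integral_nonneg fun u => mul_nonneg (hw u) (Real.exp_pos _).le

theorem Good.integrable {Ω : Type} [MeasurableSpace Ω] {P : Measure Ω} {ω : ℝ → Ω → ℝ}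
    (h : Good P ω) {w : ℝ → ℝ} (hw : Measurable w) (hw0 : ∀ u, 0 ≤ w u) (hb : ∃ K, ∀ u, w u ≤ K) :
    Integrable (mass w ω) P ∧ ∫ x, mass w ω x ∂P = ∫ u in Ico (0 : ℝ) 1, w u := by
  have h0 : 0 ≤ᵐ[P] mass w ω := ae_of_all _ (mass_nonneg hw0 ω)
  refine ⟨⟨(h.meas w hw).aestronglyMeasurable, ?_⟩, ?_⟩
  · rw [hasFiniteIntegral_iff_ofReal h0, h.mean w hw hw0 hb]
    exact ENNReal.ofReal_lt_top
  · rw [integral_eq_lintegral_of_nonneg_ae h0 (h.meas w hw).aestronglyMeasurable,
      h.mean w hw hw0 hb, ENNReal.toReal_ofReal (integral_nonneg hw0)]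

theorem Good.lip {Ω : Type} [MeasurableSpace Ω] {P : Measure Ω} [IsProbabilityMeasure P]
    {ω : ℝ → Ω → ℝ} (h : Good P ω) {w : ℝ → ℝ} (hw : Continuous w) {f : ℝ → ℝ}
    {C : ℝ} (hC : ∀ x, |f x| ≤ C) {L : NNReal} (hL : LipschitzWith L f) {η : ℝ} (hη : 0 ≤ η) :
    |∫ x, f (mass w ω x) ∂P - ∫ x, f (mass (fun u => w u + η) ω x) ∂P| ≤ L * η := by
  have hf := hL.continuous
  have hi : ∀ v : ℝ → ℝ, Continuous v → Integrable (fun x => f (mass v ω x)) P := fun v hv =>
    Integrable.of_bound (hf.measurable.comp (h.meas v hv.measurable)).aestronglyMeasurable C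
      (ae_of_all _ fun x => hC _)
  have hw' : Continuous fun u => w u + η := by fun_prop
  rw [← integral_sub (hi w hw) (hi _ hw'), ← Real.norm_eq_abs]
  obtain ⟨h1, h2⟩ := h.integrable (w := fun _ => (1 : ℝ)) measurable_const (fun _ => zero_le_one)
    ⟨1, fun _ => le_rfl⟩
  have h3 : ∫ u in Ico (0 : ℝ) 1, (1 : ℝ) = 1 := by simp
  have h4 := norm_integral_le_of_norm_le (μ := P) (h1.const_mul ((L : ℝ) * η))
    (f := fun x => f (mass w ω x) - f (mass (fun u => w u + η) ω x)) ?_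
  · rw [integral_const_mul, h2, h3, mul_one] at h4
    exact h4
  · filter_upwards [h.int] with x hx
    have h5 : IntegrableOn (fun u => w u * Real.exp (ω u x)) (Ico 0 1) :=
      IntegrableOn.continuousOn_mul_of_subset hw.continuousOn hx isCompact_Icc measurableSet_Ico
        Ico_subset_Icc_self
    have h6 : mass (fun u => w u + η) ω x = mass w ω x + η * mass (fun _ => 1) ω x := by
      unfold mass
      rw [← integral_const_mul, ← integral_add h5 (by simpa using hx.const_mul η)]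
      refine integral_congr_ae (ae_of_all _ fun u => ?_)
      simp only
      ring
    have h7 := hL.dist_le_mul (mass w ω x) (mass (fun u => w u + η) ω x)
    rw [Real.dist_eq, Real.dist_eq, h6] at h7
    rw [h6, Real.norm_eq_abs]
    refine h7.trans (le_of_eq ?_)
    rw [show mass w ω x - (mass w ω x + η * mass (fun _ => 1) ω x) =
      -(η * mass (fun _ => 1) ω x) by ring, abs_neg,
      abs_of_nonneg (mul_nonneg hη (mass_nonneg (fun _ => zero_le_one) ω x))]
    ring

section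

variable {Ω : ℝ → Type} [∀ ε, MeasurableSpace (Ω ε)] {P : ∀ ε, Measure (Ω ε)}
  {ω : ∀ ε, ℝ → Ω ε → ℝ} {Ω' : Type} [MeasurableSpace Ω'] {P' : Measure Ω'}
  [IsProbabilityMeasure P'] {M : Ω' → Measure ℝ}

theorem lip_case (hP : ∀ ε, IsProbabilityMeasure (P ε))
    (hg : ∀ᶠ ε in 𝓝[>] (0 : ℝ), Good (P ε) (ω ε)) (hM : IsChaos Ω P ω P' M)
    {w : ℝ → ℝ} (hw : Continuous w) (hw0 : ∀ u, 0 ≤ w u) {f : ℝ → ℝ}
    {C : ℝ} (hC : ∀ x, |f x| ≤ C) {L : NNReal} (hL : LipschitzWith L f) :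
    Tendsto (fun ε => ∫ x, f (mass w (ω ε) x) ∂(P ε)) (𝓝[>] 0)
      (𝓝 (∫ y, f (∫ u in Icc (0 : ℝ) 1, w u ∂(M y)) ∂P')) := by
  let fb : ℝ →ᵇ ℝ := BoundedContinuousFunction.ofNormedAddCommGroup f hL.continuous C
    fun x => by simpa using hC x
  have h1 : ∀ η : ℝ, 0 < η → Tendsto (fun ε => ∫ x, f (mass (fun u => w u + η) (ω ε) x) ∂(P ε))
      (𝓝[>] 0) (𝓝 (∫ y, f (∫ u in Icc (0 : ℝ) 1, (w u + η) ∂(M y)) ∂P')) := fun η hη =>
    hM.lim (fun u => w u + η) (hw.add continuous_const) (fun u => by have := hw0 u; linarith) fb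
  have h2 : Tendsto (fun η : ℝ => ∫ y, f (∫ u in Icc (0 : ℝ) 1, (w u + η) ∂(M y)) ∂P') (𝓝[>] 0)
      (𝓝 (∫ y, f (∫ u in Icc (0 : ℝ) 1, w u ∂(M y)) ∂P')) := by
    refine tendsto_integral_filter_of_dominated_convergence (fun _ => C) ?_ ?_
      (integrable_const _) ?_
    · filter_upwards [self_mem_nhdsWithin] with η hη
      have hw' : Continuous fun u => w u + η := by fun_prop
      exact (hL.continuous.measurable.comp (meas_int hM.meas hw'
        fun u => by have := hw0 u; have := (mem_Ioi.1 hη).le; linarith)).aestronglyMeasurable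
    · exact Eventually.of_forall fun η => ae_of_all _ fun y => hC _
    · filter_upwards [hM.fin] with y hy
      have : IsFiniteMeasure (M y) := ⟨hy⟩
      have h3 : ∀ η : ℝ, ∫ u in Icc (0 : ℝ) 1, (w u + η) ∂(M y) =
          ∫ u in Icc (0 : ℝ) 1, w u ∂(M y) + η * (M y).real (Icc 0 1) := by
        intro η
        rw [integral_add (hw.continuousOn.integrableOn_compact isCompact_Icc)
          (integrable_const _), setIntegral_const, smul_eq_mul, mul_comm]
      have h4 : Tendsto (fun η : ℝ => ∫ u in Icc (0 : ℝ) 1, w u ∂(M y) +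
          η * (M y).real (Icc 0 1)) (𝓝[>] 0) (𝓝 (∫ u in Icc (0 : ℝ) 1, w u ∂(M y))) := by
        have h5 : Continuous fun η : ℝ => ∫ u in Icc (0 : ℝ) 1, w u ∂(M y) +
          η * (M y).real (Icc 0 1) := by fun_prop
        have h6 := (h5.tendsto 0).mono_left (nhdsWithin_le_nhds (s := Ioi 0))
        simpa using h6
      simp only [h3]
      exact (hL.continuous.tendsto _).comp h4
  rw [Metric.tendsto_nhds]
  intro δ hδ
  have e1 : ∀ᶠ η : ℝ in 𝓝[>] 0, (L : ℝ) * η < δ / 3 := by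
    have h5 : Continuous fun η : ℝ => (L : ℝ) * η := by fun_prop
    have h6 := (h5.tendsto 0).mono_left (nhdsWithin_le_nhds (s := Ioi 0))
    rw [mul_zero] at h6
    exact h6.eventually_lt_const (by positivity)
  have e2 := (Metric.tendsto_nhds.1 h2) (δ / 3) (by positivity)
  obtain ⟨η, hη1, hη2, hη3⟩ := (e1.and (e2.and self_mem_nhdsWithin)).exists
  have hη : 0 < η := hη3
  filter_upwards [(Metric.tendsto_nhds.1 (h1 η hη)) (δ / 3) (by positivity), hg] with ε h3 h4
  have := hP ε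
  have h5 := h4.lip hw hC hL hη.le
  rw [Real.dist_eq] at hη2 h3 ⊢
  have h6 := abs_add_three (∫ x, f (mass w (ω ε) x) ∂(P ε) -
      ∫ x, f (mass (fun u => w u + η) (ω ε) x) ∂(P ε))
    (∫ x, f (mass (fun u => w u + η) (ω ε) x) ∂(P ε) -
      ∫ y, f (∫ u in Icc (0 : ℝ) 1, (w u + η) ∂(M y)) ∂P')
    (∫ y, f (∫ u in Icc (0 : ℝ) 1, (w u + η) ∂(M y)) ∂P' -
      ∫ y, f (∫ u in Icc (0 : ℝ) 1, w u ∂(M y)) ∂P')
  rw [show ∀ a b c d : ℝ, a - b + (b - c) + (c - d) = a - d from fun a b c d => by ring] at h6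
  linarith

theorem partA (hP : ∀ ε, IsProbabilityMeasure (P ε))
    (hg : ∀ᶠ ε in 𝓝[>] (0 : ℝ), Good (P ε) (ω ε)) (hM : IsChaos Ω P ω P' M)
    {w : ℝ → ℝ} (hw : Continuous w) (hw0 : ∀ u, 0 ≤ w u) (f : ℝ →ᵇ ℝ) :
    Tendsto (fun ε => ∫ x, f (mass w (ω ε) x) ∂(P ε)) (𝓝[>] 0)
      (𝓝 (∫ y, f (∫ u in Icc (0 : ℝ) 1, w u ∂(M y)) ∂P')) := by
  refine upgrade P hP (fun ε => mass w (ω ε)) ?_ P' _ (meas_int hM.meas hw hw0) ?_ f
  · filter_upwards [hg] with ε h
    exact h.meas w hw.measurable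
  · rintro g ⟨C, hC⟩ ⟨L, hL⟩
    exact lip_case hP hg hM hw hw0 hC hL

theorem atom (hP : ∀ ε, IsProbabilityMeasure (P ε))
    (hg : ∀ᶠ ε in 𝓝[>] (0 : ℝ), Good (P ε) (ω ε)) (hM : IsChaos Ω P ω P' M)
    {a : ℝ} (ha : a ∈ Icc (0 : ℝ) 1) : ∀ᵐ y ∂P', M y {a} = 0 := by
  have key : ∀ n : ℕ, ∫ y, min 1 (M y {a}).toReal ∂P' ≤ 2 / ((n : ℝ) + 1) := by
    intro n
    set w : ℝ → ℝ := fun u => max 0 (1 - ((n : ℝ) + 1) * |u - a|) with hwdef
    have hw : Continuous w := by fun_prop
    have hw0 : ∀ u, 0 ≤ w u := fun u => le_max_left _ _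
    have hw1 : ∀ u, w u ≤ 1 := fun u => max_le zero_le_one (by
      have : 0 ≤ ((n : ℝ) + 1) * |u - a| := by positivity
      linarith)
    have hwa : w a = 1 := by simp [hwdef]
    have hint : ∫ u in Ico (0 : ℝ) 1, w u ≤ 2 / ((n : ℝ) + 1) := by
      have hn : (0 : ℝ) < (n : ℝ) + 1 := by positivity
      have h1 : ∀ u, w u ≤ (Icc (a - 1 / ((n : ℝ) + 1)) (a + 1 / ((n : ℝ) + 1))).indicator
          (fun _ => (1 : ℝ)) u := by
        intro u
        by_cases hu : u ∈ Icc (a - 1 / ((n : ℝ) + 1)) (a + 1 / ((n : ℝ) + 1))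
        · rw [indicator_of_mem hu]; exact hw1 u
        · rw [indicator_of_notMem hu]
          refine max_le le_rfl ?_
          have h2 : 1 / ((n : ℝ) + 1) < |u - a| := by
            by_contra h3
            push Not at h3
            rw [abs_le] at h3
            exact hu ⟨by linarith [h3.1], by linarith [h3.2]⟩
          rw [div_lt_iff₀ hn] at h2
          linarith [mul_comm ((n : ℝ) + 1) |u - a|]
      have h3 : Integrable ((Icc (a - 1 / ((n : ℝ) + 1)) (a + 1 / ((n : ℝ) + 1))).indicator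
          (fun _ => (1 : ℝ))) := (integrable_indicator_iff measurableSet_Icc).2 (by simp)
      have h4 : IntegrableOn w (Ico 0 1) :=
        (hw.continuousOn.integrableOn_compact (isCompact_Icc (a := (0 : ℝ)) (b := 1))).mono_set
          Ico_subset_Icc_self
      calc ∫ u in Ico (0 : ℝ) 1, w u
          ≤ ∫ u in Ico (0 : ℝ) 1, (Icc (a - 1 / ((n : ℝ) + 1)) (a + 1 / ((n : ℝ) + 1))).indicator
              (fun _ => (1 : ℝ)) u := integral_mono h4 h3.integrableOn h1
        _ ≤ ∫ u, (Icc (a - 1 / ((n : ℝ) + 1)) (a + 1 / ((n : ℝ) + 1))).indicator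
              (fun _ => (1 : ℝ)) u :=
            setIntegral_le_integral h3 (ae_of_all _ fun u => indicator_nonneg
              (fun _ _ => zero_le_one) u)
        _ = 2 / ((n : ℝ) + 1) := by
            rw [integral_indicator measurableSet_Icc, setIntegral_const, smul_eq_mul, mul_one,
              Real.volume_real_Icc_of_le (by have : 0 < 1 / ((n : ℝ) + 1) := by positivity
                                             linarith)]
            ring
    let g : ℝ → ℝ := fun x => min 1 (max x 0)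
    have hg0 : ∀ x, 0 ≤ g x := fun x => le_min zero_le_one (le_max_right _ _)
    have hg1 : ∀ x, |g x| ≤ 1 := fun x => by
      rw [abs_of_nonneg (hg0 x)]; exact min_le_left _ _
    have hgc : Continuous g := by fun_prop
    let fb : ℝ →ᵇ ℝ := BoundedContinuousFunction.ofNormedAddCommGroup g hgc 1
      fun x => by simpa using hg1 x
    have hT := partA hP hg hM hw hw0 fb
    have hle : ∫ y, g (∫ u in Icc (0 : ℝ) 1, w u ∂(M y)) ∂P' ≤ 2 / ((n : ℝ) + 1) := by
      refine le_of_tendsto hT ?_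
      filter_upwards [hg] with ε h
      have := hP ε
      obtain ⟨h1, h2⟩ := h.integrable hw.measurable hw0 ⟨1, hw1⟩
      refine le_trans ?_ (h2.le.trans hint)
      refine integral_mono_of_nonneg (ae_of_all _ fun x => hg0 _) h1 (ae_of_all _ fun x => ?_)
      show g (mass w (ω ε) x) ≤ mass w (ω ε) x
      refine (min_le_right _ _).trans (max_le le_rfl (mass_nonneg hw0 _ _))
    refine le_trans ?_ hle
    refine integral_mono_of_nonneg (ae_of_all _ fun y => ?_) ?_ ?_
    · exact le_min zero_le_one ENNReal.toReal_nonneg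
    · exact Integrable.of_bound (hgc.measurable.comp
        (meas_int hM.meas hw hw0)).aestronglyMeasurable 1 (ae_of_all _ fun y => hg1 _)
    · filter_upwards [hM.fin] with y hy
      have : IsFiniteMeasure (M y) := ⟨hy⟩
      refine min_le_min le_rfl (le_trans ?_ (le_max_left _ _))
      have h5 : ∫ u in ({a} : Set ℝ), w u ∂(M y) ≤ ∫ u in Icc (0 : ℝ) 1, w u ∂(M y) :=
        setIntegral_mono_set (hw.continuousOn.integrableOn_compact isCompact_Icc)
          (ae_of_all _ hw0) (ae_of_all _ (singleton_subset_iff.2 ha))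
      refine le_trans (le_of_eq ?_) h5
      rw [integral_singleton, hwa]
      simp [Measure.real]
  have h0 : ∫ y, min 1 (M y {a}).toReal ∂P' ≤ 0 := by
    have hT : Tendsto (fun n : ℕ => 2 / ((n : ℝ) + 1)) atTop (𝓝 0) := by
      have := (tendsto_one_div_add_atTop_nhds_zero_nat (𝕜 := ℝ)).const_mul 2
      simpa [div_eq_mul_inv] using this
    exact ge_of_tendsto' hT key
  have hnn : 0 ≤ fun y => min 1 (M y {a}).toReal :=
    fun y => le_min zero_le_one ENNReal.toReal_nonneg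
  have hme : Measurable fun y => min 1 (M y {a}).toReal :=
    measurable_const.min ((Measure.measurable_coe (measurableSet_singleton a)).comp
      hM.meas).ennreal_toReal
  have hint : Integrable (fun y => min 1 (M y {a}).toReal) P' :=
    Integrable.of_bound hme.aestronglyMeasurable 1 (ae_of_all _ fun y => by
      rw [Real.norm_of_nonneg (hnn y)]; exact min_le_left _ _)
  have h1 := (integral_eq_zero_iff_of_nonneg hnn hint).1
    (le_antisymm h0 (integral_nonneg hnn))
  filter_upwards [h1, hM.fin] with y hy hfin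
  have h2 : min 1 (M y {a}).toReal = 0 := hy
  have h3 : (M y {a}).toReal = 0 := by
    rcases min_choice 1 (M y {a}).toReal with h | h
    · rw [h] at h2; norm_num at h2
    · rw [h] at h2; exact h2
  rcases (ENNReal.toReal_eq_zero_iff _).1 h3 with h | h
  · exact h
  · exact absurd h ((measure_mono (subset_univ _)).trans_lt hfin).ne

end

theorem LAW1_holds (hP : St_POSW) : St_LAW1 := by
  intro c r μ Ω _ P ω hF Ω' _ P' _ M hM
  have hprob := hF.prob
  have hg : ∀ᶠ ε in 𝓝[>] (0 : ℝ), Good (P ε) (ω ε) := by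
    have h2 : ∀ᶠ ε : ℝ in 𝓝[>] 0, ε ∈ Ioo (0 : ℝ) (1 / 2) := Ioo_mem_nhdsGT (by norm_num)
    filter_upwards [hF.field, h2] with ε h3 h4
    have := hprob ε
    obtain ⟨p1, p2, _, p4⟩ := hP c r μ ε hF.adm hF.mu_pos h4.1 h4.2 (Ω ε) (P ε) (ω ε) h3
    exact ⟨p1, p2, p4⟩
  refine ⟨fun w hw hw0 f => partA hprob hg hM hw hw0 f, ?_⟩
  filter_upwards [atom hprob hg hM (a := 0) ⟨le_rfl, zero_le_one⟩,
    atom hprob hg hM (a := 1) ⟨zero_le_one, le_rfl⟩] with y h0 h1
  exact ⟨h0, h1⟩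

end

end Pool.Agent.L5helper20.CG.LAW1
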